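import Mathlib

set_option autoImplicit false

open Set Filter Topology Metric

namespace Pool.Agent.H.MP_5d6127_an

def sh (a : ℝ) (z : ℂ × ℂ) : ℂ × ℂ := (z.1 + a * z.2 ^ 2, z.2)

lemma exp_ne (t : ℝ) : (Real.exp t : ℂ) ≠ 0 := by exact_mod_cast (Real.exp_pos t).ne'

lemma sh_diff (a : ℝ) : Differentiable ℂ (sh a) := by unfold sh; fun_prop

lemma sh_der (a : ℝ) : HasFDerivAt (sh a) (ContinuousLinearMap.id ℂ (ℂ × ℂ)) 0 := by
  have h := ((hasFDerivAt_fst (𝕜 := ℂ) (p := (0 : ℂ × ℂ))).add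
    (((hasFDerivAt_snd (𝕜 := ℂ) (p := (0 : ℂ × ℂ))).pow 2).const_mul (a:ℂ))).prodMk
    (hasFDerivAt_snd (𝕜 := ℂ) (p := (0 : ℂ × ℂ)))
  refine HasFDerivAt.congr_fderiv (f := sh a) h ?_
  ext <;> simp

lemma mem_iff (z : ℂ × ℂ) : z ∈ ball (0 : ℂ × ℂ) 1 ↔ ‖z.1‖ < 1 ∧ ‖z.2‖ < 1 := by
  rw [mem_ball_zero_iff, Prod.norm_def, max_lt_iff]

lemma chain (a : ℝ) (h0 : 0 ≤ a) (h1 : a ≤ 1) :
    ∃ F : ℝ → ℂ × ℂ → ℂ × ℂ, (∀ z ∈ ball (0 : ℂ × ℂ) 1, F 0 z = sh a z) ∧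
    (∀ t : ℝ, 0 ≤ t → DifferentiableOn ℂ (F t) (ball 0 1) ∧ InjOn (F t) (ball 0 1) ∧ F t 0 = 0 ∧
      fderiv ℂ (F t) 0 = (Real.exp t : ℂ) • ContinuousLinearMap.id ℂ (ℂ × ℂ)) ∧
    (∀ s t : ℝ, 0 ≤ s → s ≤ t → F s '' ball 0 1 ⊆ F t '' ball 0 1) ∧
    ∀ u : ℕ → ℝ, (∀ n, 0 ≤ u n) → ∃ φ : ℕ → ℕ, StrictMono φ ∧ ∃ g : ℂ × ℂ → ℂ × ℂ,
      TendstoLocallyUniformlyOn (fun n z => (Real.exp (-u (φ n)) : ℂ) • F (u (φ n)) z) g atTop
        (ball 0 1) := by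
  refine ⟨fun t z => (Real.exp t : ℂ) • sh a z, fun z _ => by simp, fun t _ =>
    ⟨((sh_diff a).const_smul (Real.exp t : ℂ)).differentiableOn, fun x _ y _ h => ?_,
      by simp [sh], ((sh_der a).const_smul (Real.exp t : ℂ)).fderiv⟩, fun s t hs hst => ?_,
    fun u _ => ⟨id, strictMono_id, sh a, ?_⟩⟩
  · have h2 := smul_right_injective _ (exp_ne t) h
    simp only [sh, Prod.mk.injEq] at h2
    obtain ⟨h3, h4⟩ := h2
    rw [h4] at h3
    exact Prod.ext (add_right_cancel h3) h4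
  · rintro _ ⟨z, hz, rfl⟩
    obtain ⟨z1, z2⟩ := (mem_iff z).1 hz
    set τ := Real.exp (s - t) with hτ
    have t0 : 0 < τ := Real.exp_pos _
    have t1 : τ ≤ 1 := Real.exp_le_one_iff.2 (by linarith)
    have e : (Real.exp s : ℂ) = Real.exp t * τ := by
      rw [hτ, ← Complex.ofReal_mul, ← Real.exp_add]; congr 2; ring
    refine ⟨(τ * z.1 + ((a * τ * (1 - τ) : ℝ) : ℂ) * z.2 ^ 2, τ * z.2), (mem_iff _).2 ⟨?_, ?_⟩, ?_⟩
    · refine (norm_add_le _ _).trans_lt ?_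
      have b0 : 0 ≤ a * τ * (1 - τ) := by
        have : 0 ≤ 1 - τ := by linarith
        positivity
      rw [norm_mul, norm_mul, Complex.norm_real, Complex.norm_real, Real.norm_eq_abs,
        Real.norm_eq_abs, abs_of_pos t0, abs_of_nonneg b0, norm_pow]
      have b1 : ‖z.2‖ ^ 2 ≤ 1 := by nlinarith [norm_nonneg z.2]
      have b2 : a * τ * (1 - τ) * ‖z.2‖ ^ 2 ≤ a * τ * (1 - τ) := mul_le_of_le_one_right b0 b1
      have b3 : a * τ * (1 - τ) ≤ 1 - τ := by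
        apply mul_le_of_le_one_left (by linarith)
        nlinarith
      have b4 : τ * ‖z.1‖ < τ := mul_lt_of_lt_one_right t0 z1
      linarith
    · simp only
      rw [norm_mul, Complex.norm_real, Real.norm_eq_abs, abs_of_pos t0]
      nlinarith [norm_nonneg z.2]
    · simp only [sh, e, Prod.smul_mk, smul_eq_mul, Prod.mk.injEq]
      push_cast
      constructor <;> ring
  · have e : (fun (n : ℕ) (z : ℂ × ℂ) =>
        (Real.exp (-u (id n)) : ℂ) • (Real.exp (u (id n)) : ℂ) • sh a z) = fun _ => sh a := by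
      funext n z
      rw [smul_smul, ← Complex.ofReal_mul, ← Real.exp_add]; simp
    simp only [e]
    apply TendstoUniformlyOn.tendstoLocallyUniformlyOn
    rw [Metric.tendstoUniformlyOn_iff]
    intro ε hε
    exact Eventually.of_forall fun n x _ => by simpa using hε

lemma bound (a M : ℝ) (h0 : 0 ≤ a) (h1 : 1 + a ≤ M) (z : ℂ × ℂ) (hz : z ∈ ball (0 : ℂ × ℂ) 1) :
    ‖sh a z‖ ≤ M := by
  obtain ⟨z1, z2⟩ := (mem_iff z).1 hz
  rw [Prod.norm_def, max_le_iff]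
  refine ⟨(norm_add_le _ _).trans ?_, by simp only [sh]; linarith⟩
  rw [norm_mul, Complex.norm_real, Real.norm_eq_abs, abs_of_nonneg h0, norm_pow]
  have b1 : ‖z.2‖ ^ 2 ≤ 1 := by nlinarith [norm_nonneg z.2]
  nlinarith

lemma coef (a : ℝ) : iteratedDeriv 2 (fun w : ℂ => (sh a (0, w)).1) 0 / 2 = a := by
  have e : (fun w : ℂ => (sh a (0, w)).1) = fun w => (a:ℂ) * w ^ 2 := by funext w; simp [sh]
  rw [e, iteratedDeriv_const_mul _ (by fun_prop), iteratedDeriv_fun_pow_zero]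
  simp

lemma eps (M : ℝ) (hM : 1 < M) : ∃ ε : ℝ, 0 < ε ∧ ε ≤ 1 - 1 / M ∧ 1 - 1 / M + ε ≤ 1 ∧
    1 + (1 - 1 / M + ε) ≤ M := by
  have h1 : 0 < 1 / M := by positivity
  have h2 : 1 / M < 1 := by rw [div_lt_one (by linarith)]; exact hM
  have h3 : 0 < M + 1 / M - 2 := by
    have : M + 1 / M - 2 = (M - 1) ^ 2 / M := by field_simp; ring
    rw [this]
    have : 0 < M - 1 := by linarith
    positivity
  refine ⟨min (min (1 - 1 / M) (1 / M)) (M + 1 / M - 2), lt_min (lt_min (by linarith) h1) h3,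
    (min_le_left _ _).trans (min_le_left _ _), ?_, ?_⟩
  · linarith [(min_le_left (min (1 - 1 / M) (1 / M)) (M + 1 / M - 2)).trans (min_le_right _ _)]
  · linarith [min_le_right (min (1 - 1 / M) (1 / M)) (M + 1 / M - 2)]

end Pool.Agent.H.MP_5d6127_an
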